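import Pool.Agent.helper7.CS.Final

/-!
# The family `l cos z` has no invariant line fields

`HasInvariantLineField`, `juliaSet` and the notions they use are defined in
`Pool/Agent/helper98/ILF/Defs.lean`.
-/

set_option autoImplicit false

namespace Pool.Agent.Results.MP_70a088_an.CosineFamily

open Pool.Agent.helper98.ILF

/-- For every complex number `l` the map `z ↦ l cos z` has no invariant line field on its Julia
set. -/
theorem result : ∀ l : ℂ, ¬ HasInvariantLineField (fun z : ℂ => l * Complex.cos z) :=
  CSF.COSF

end Pool.Agent.Results.MP_70a088_an.CosineFamily
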